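import Mathlib
import Pool.Graph.R_pool_sql_team_seeded_3997aac3.Q157.Quiddity

/-!
Irreducible solutions of `(E_N)` whose size is a large multiple of `N`, and a product theorem for
irreducible solutions.
-/

namespace Pool.Agent.H92.Quid

open Matrix Q157.Quiddity

theorem M_cons {N : ℕ} (a : ZMod N) (l : List (ZMod N)) : M (a :: l) = M l * A a := rfl

theorem M_append {N : ℕ} (l₁ l₂ : List (ZMod N)) : M (l₁ ++ l₂) = M l₂ * M l₁ := by
  induction l₁ with
  | nil => simp [M]
  | cons a l ih => rw [List.cons_append, M_cons, ih, M_cons, Matrix.mul_assoc]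

theorem M_singleton {N : ℕ} (a : ZMod N) : M [a] = A a := by simp [M]

/-- conjugation by `diag(1,-1)` combined with transposition reverses the word -/
theorem M_reverse {N : ℕ} (l : List (ZMod N)) :
    M l.reverse 0 0 = M l 0 0 ∧ M l.reverse 0 1 = - M l 1 0 ∧
    M l.reverse 1 0 = - M l 0 1 ∧ M l.reverse 1 1 = M l 1 1 := by
  induction l with
  | nil => simp [M]
  | cons a l ih =>
    obtain ⟨h1, h2, h3, h4⟩ := ih
    rw [List.reverse_cons, M_append, M_singleton, M_cons]
    simp only [Matrix.mul_apply, Fin.sum_univ_two, A, h1, h2, h3, h4]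
    refine ⟨?_, ?_, ?_, ?_⟩ <;> simp <;> ring

/-- The product of `j` consecutive letters starting at position `s`. -/
def P {N : ℕ} (a : ℕ → ZMod N) (s j : ℕ) : Matrix (Fin 2) (Fin 2) (ZMod N) :=
  M ((List.range' s j).map a)

theorem P_zero {N : ℕ} (a : ℕ → ZMod N) (s : ℕ) : P a s 0 = 1 := by simp [P, M]

theorem P_add {N : ℕ} (a : ℕ → ZMod N) (s i j : ℕ) : P a s (i + j) = P a (s + i) j * P a s i := by
  unfold P
  rw [← M_append, ← List.map_append, List.range'_append_1]

theorem P_succ {N : ℕ} (a : ℕ → ZMod N) (s j : ℕ) : P a s (j + 1) = A (a (s + j)) * P a s j := by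
  rw [P_add]
  congr 1
  simp [P, M]

/-- The property that passes to products. -/
structure Good (N L : ℕ) (a : ℕ → ZMod N) : Prop where
  per : ∀ i, a (i + L) = a i
  one : ∀ s, P a s L = 1
  pos : ∀ s j, P a s j 0 0 = 1 → L ∣ j
  neg : ∀ s j, P a s j 0 0 = -1 → L ∣ j + 2

/-- The constant word `2`. -/
theorem P_two {N : ℕ} (s j : ℕ) : P (fun _ => (2 : ZMod N)) s j =
    !![(j : ZMod N) + 1, -(j : ZMod N); (j : ZMod N), 1 - (j : ZMod N)] := by
  induction j with
  | zero => simp [P_zero, one_fin_two]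
  | succ n ih =>
    rw [P_succ, ih, A, mul_fin_two]
    ext i j
    fin_cases i <;> fin_cases j <;> simp <;> ring

theorem good_two (N : ℕ) : Good N N (fun _ => (2 : ZMod N)) := by
  refine ⟨fun _ => rfl, fun s => ?_, fun s j h => ?_, fun s j h => ?_⟩
  · rw [P_two]; simp [one_fin_two]
  · rw [P_two] at h
    simp at h
    exact (ZMod.natCast_eq_zero_iff j N).1 h
  · rw [P_two] at h
    simp at h
    rw [← ZMod.natCast_eq_zero_iff]
    push_cast
    linear_combination h

section crt

variable {N₁ N₂ : ℕ} (hc : Nat.Coprime N₁ N₂)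

noncomputable def f₁ : ZMod (N₁ * N₂) →+* ZMod N₁ :=
  (RingHom.fst (ZMod N₁) (ZMod N₂)).comp (ZMod.chineseRemainder hc).toRingHom

noncomputable def f₂ : ZMod (N₁ * N₂) →+* ZMod N₂ :=
  (RingHom.snd (ZMod N₁) (ZMod N₂)).comp (ZMod.chineseRemainder hc).toRingHom

/-- the combined letter -/
noncomputable def cmb (x : ZMod N₁) (y : ZMod N₂) : ZMod (N₁ * N₂) :=
  (ZMod.chineseRemainder hc).symm (x, y)

theorem f₁_cmb (x : ZMod N₁) (y : ZMod N₂) : f₁ hc (cmb hc x y) = x := by simp [f₁, cmb]

theorem f₂_cmb (x : ZMod N₁) (y : ZMod N₂) : f₂ hc (cmb hc x y) = y := by simp [f₂, cmb]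

theorem eq_of_f {x y : ZMod (N₁ * N₂)} (h1 : f₁ hc x = f₁ hc y) (h2 : f₂ hc x = f₂ hc y) :
    x = y :=
  (ZMod.chineseRemainder hc).injective (Prod.ext h1 h2)

theorem P_map {N N' : ℕ} (f : ZMod N →+* ZMod N') (a : ℕ → ZMod N) (s j : ℕ) :
    (P a s j).map f = P (fun i => f (a i)) s j := by
  induction j with
  | zero =>
    rw [P_zero, P_zero]
    exact Matrix.map_one f (map_zero f) (map_one f)
  | succ j ih =>
    rw [P_succ, P_succ, Matrix.map_mul, ih]
    congr 1
    rw [A, A]
    ext i j
    fin_cases i <;> fin_cases j <;> simp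

theorem per_mul {N L : ℕ} {a : ℕ → ZMod N} (h : ∀ i, a (i + L) = a i) (k i : ℕ) :
    a (i + L * k) = a i := by
  induction k with
  | zero => simp
  | succ k ih => rw [mul_add, mul_one, ← add_assoc, h, ih]

theorem P_per {N L : ℕ} {a : ℕ → ZMod N} (h : ∀ i, a (i + L) = a i) (s k j : ℕ) :
    P a (s + L * k) j = P a s j := by
  induction j with
  | zero => simp [P_zero]
  | succ j ih =>
    rw [P_succ, P_succ, ih, show s + L * k + j = s + j + L * k by ring, per_mul h]

theorem one_mul'' {N L : ℕ} {a : ℕ → ZMod N} (h1 : ∀ i, a (i + L) = a i)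
    (h2 : ∀ s, P a s L = 1) (s k : ℕ) : P a s (L * k) = 1 := by
  induction k with
  | zero => simp [P_zero]
  | succ k ih => rw [mul_add, mul_one, P_add, ih, P_per h1, h2, one_mul]

theorem one_mul' {N L : ℕ} {a : ℕ → ZMod N} (h : Good N L a) (s k : ℕ) : P a s (L * k) = 1 :=
  one_mul'' h.per h.one s k

/-- **The product theorem.** -/
theorem Good.mul {L₁ L₂ : ℕ} {a : ℕ → ZMod N₁} {b : ℕ → ZMod N₂} (h₁ : Good N₁ L₁ a)
    (h₂ : Good N₂ L₂ b) (hL : Nat.Coprime L₁ L₂) :
    Good (N₁ * N₂) (L₁ * L₂) (fun i => cmb hc (a i) (b i)) := by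
  have e1 : ∀ s j, f₁ hc (P (fun i => cmb hc (a i) (b i)) s j 0 0) = P a s j 0 0 := by
    intro s j
    have := P_map (f₁ hc) (fun i => cmb hc (a i) (b i)) s j
    simp only [f₁_cmb] at this
    rw [← this, Matrix.map_apply]
  have e2 : ∀ s j, f₂ hc (P (fun i => cmb hc (a i) (b i)) s j 0 0) = P b s j 0 0 := by
    intro s j
    have := P_map (f₂ hc) (fun i => cmb hc (a i) (b i)) s j
    simp only [f₂_cmb] at this
    rw [← this, Matrix.map_apply]
  refine ⟨fun i => ?_, fun s => ?_, fun s j h => ?_, fun s j h => ?_⟩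
  · show cmb hc (a (i + L₁ * L₂)) (b (i + L₁ * L₂)) = cmb hc (a i) (b i)
    rw [per_mul h₁.per, mul_comm L₁ L₂, per_mul h₂.per]
  · ext i j
    apply eq_of_f hc
    · have := P_map (f₁ hc) (fun i => cmb hc (a i) (b i)) s (L₁ * L₂)
      simp only [f₁_cmb] at this
      rw [← Matrix.map_apply (f := f₁ hc), this, one_mul' h₁, ← Matrix.map_apply (f := f₁ hc),
        Matrix.map_one _ (map_zero _) (map_one _)]
    · have := P_map (f₂ hc) (fun i => cmb hc (a i) (b i)) s (L₁ * L₂)
      simp only [f₂_cmb] at this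
      rw [← Matrix.map_apply (f := f₂ hc), this, mul_comm L₁ L₂, one_mul' h₂,
        ← Matrix.map_apply (f := f₂ hc), Matrix.map_one _ (map_zero _) (map_one _)]
  · exact hL.mul_dvd_of_dvd_of_dvd (h₁.pos s j (by rw [← e1, h, map_one]))
      (h₂.pos s j (by rw [← e2, h, map_one]))
  · exact hL.mul_dvd_of_dvd_of_dvd (h₁.neg s j (by rw [← e1, h, map_neg, map_one]))
      (h₂.neg s j (by rw [← e2, h, map_neg, map_one]))

end crt

/-- The word of length `L` read off a sequence. -/
def word {N : ℕ} (a : ℕ → ZMod N) (L : ℕ) : List (ZMod N) := (List.range' 0 L).map a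

theorem word_rotate {N L : ℕ} {a : ℕ → ZMod N} (h : ∀ i, a (i + L) = a i) (k : ℕ) :
    (word a L).rotate k = (List.range' k L).map a := by
  apply List.ext_getElem
  · simp [word]
  · intro i h1 h2
    simp only [word, List.length_rotate, List.length_map, List.length_range'] at h1
    rw [List.getElem_rotate]
    simp only [word, List.getElem_map, List.getElem_range', List.length_map, List.length_range']
    have hd := Nat.mod_add_div (i + k) L
    have := per_mul h ((i + k) / L) ((i + k) % L)
    rw [hd] at this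
    simp only [zero_add, one_mul]
    rw [← this, add_comm]

theorem entry {N : ℕ} (P : Matrix (Fin 2) (Fin 2) (ZMod N)) (x y : ZMod N)
    (h : A y * P * A x = 1 ∨ A y * P * A x = -1) : P 0 0 = 1 ∨ P 0 0 = -1 := by
  have hentry : (A y * P * A x) 1 1 = -P 0 0 := by
    rw [eta_fin_two P, A, A, mul_fin_two, mul_fin_two]
    simp
  rcases h with h | h
  · right
    have := congrFun (congrFun h 1) 1
    rw [hentry] at this
    simp at this
    rw [← this, neg_neg]
  · left
    have := congrFun (congrFun h 1) 1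
    rw [hentry] at this
    simp at this
    exact this

theorem Good.irreducible {N L : ℕ} {a : ℕ → ZMod N} (h : Good N L a) (hL : 3 ≤ L) :
    IsIrreducibleSolution (word a L) := by
  refine ⟨⟨by simp [word]; omega, Or.inl (h.one 0)⟩, by simp [word]; omega, ?_⟩
  rintro ⟨x, y, d, _, hx3, hy, hy3, ⟨a₁, aₙ, b₁, bₘ, a', b', rfl, rfl, rfl⟩, hequiv⟩
  simp only [List.length_cons, List.length_append, List.length_nil] at hx3 hy3
  set j := b'.length with hj
  -- `b'` or its reversal is a block of consecutive letters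
  have key : ∃ s, M b' 0 0 = P a s j 0 0 := by
    rcases hequiv with hq | hq
    · obtain ⟨k, hk⟩ := hq
      rw [word_rotate h.per] at hk
      have hlen := congrArg List.length hk
      simp only [List.length_cons, List.length_append, List.length_map,
        List.length_range'] at hlen
      refine ⟨k + (L - j), ?_⟩
      have h1 : (List.range' k L).map a = (List.range' k (L - j)).map a ++
          (List.range' (k + (L - j)) j).map a := by
        rw [← List.map_append, List.range'_append_1]
        congr 2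
        omega
      have h2 : (a₁ + bₘ) :: (a' ++ (aₙ + b₁) :: b') = ((a₁ + bₘ) :: (a' ++ [aₙ + b₁])) ++ b' := by
        simp
      rw [h1, h2] at hk
      have := List.append_inj_right' hk (by simp [hj])
      rw [← this]
      rfl
    · have hq' : word a L ~r ((a₁ + bₘ) :: (a' ++ (aₙ + b₁) :: b')).reverse := by
        rw [← List.isRotated_reverse_iff, List.reverse_reverse]
        exact hq
      obtain ⟨k, hk⟩ := hq'
      rw [word_rotate h.per] at hk
      have hlen := congrArg List.length hk
      simp only [List.length_cons, List.length_append, List.length_map, List.length_reverse,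
        List.length_range'] at hlen
      refine ⟨k, ?_⟩
      have h1 : (List.range' k L).map a = (List.range' k j).map a ++
          (List.range' (k + j) (L - j)).map a := by
        rw [← List.map_append, List.range'_append_1]
        congr 2
        omega
      have h2 : ((a₁ + bₘ) :: (a' ++ (aₙ + b₁) :: b')).reverse =
          b'.reverse ++ ((a₁ + bₘ) :: (a' ++ [aₙ + b₁])).reverse := by
        simp
      rw [h1, h2] at hk
      have := List.append_inj_left hk (by simp [hj])
      rw [← (M_reverse b').1, ← this]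
      rfl
  have hlenj : 1 ≤ j ∧ j + 3 ≤ L := by
    refine ⟨by omega, ?_⟩
    have hlen : L = ((a₁ + bₘ) :: (a' ++ (aₙ + b₁) :: b')).length := by
      rcases hequiv with hq | hq
      · have := hq.perm.length_eq
        simpa [word] using this
      · have := hq.perm.length_eq
        simpa [word] using this
    simp only [List.length_cons, List.length_append] at hlen
    omega
  obtain ⟨s, hs⟩ := key
  have hK : P a s j 0 0 = 1 ∨ P a s j 0 0 = -1 := by
    rw [← hs]
    have hM := hy.2
    rw [M_cons, M_append, M_singleton] at hM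
    exact entry _ _ _ hM
  rcases hK with hK | hK
  · have := Nat.le_of_dvd (by omega) (h.pos s j hK)
    omega
  · have := Nat.le_of_dvd (by omega) (h.neg s j hK)
    omega


theorem A_add {N : ℕ} (x y : ZMod N) : A (x + y) = -(A x * A 0 * A y) := by
  rw [A, A, A, A, mul_fin_two, mul_fin_two]
  ext i j
  fin_cases i <;> fin_cases j <;> simp <;> ring

theorem A_zero_mul {N : ℕ} : A (0 : ZMod N) * A 0 = -1 := by
  rw [A, mul_fin_two, one_fin_two]
  ext i j
  fin_cases i <;> fin_cases j <;> simp

theorem det_M {N : ℕ} (l : List (ZMod N)) : (M l).det = 1 := by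
  induction l with
  | nil => simp [M]
  | cons a l ih => rw [M_cons, Matrix.det_mul, ih, A, det_fin_two]; simp

/-- A block with continuant `ε = ± 1` splits off. -/
theorem reducible_of_block {N : ℕ} (u v : ZMod N) (mid B : List (ZMod N)) (ε : ZMod N)
    (hε : ε = 1 ∨ ε = -1) (hB : M B 0 0 = ε) (hB1 : 1 ≤ B.length) (hm1 : 1 ≤ mid.length)
    (hM : M (u :: (mid ++ v :: B)) = 1) (c : List (ZMod N))
    (hc : c ~r (u :: (mid ++ v :: B))) : IsReducible c := by
  have hεε : ε * ε = 1 := by rcases hε with rfl | rfl <;> simp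
  have hdet := det_M B
  rw [det_fin_two, hB] at hdet
  obtain ⟨b₁, hb₁⟩ : ∃ b₁, b₁ = -(ε * M B 0 1) := ⟨_, rfl⟩
  obtain ⟨bₘ, hbₘ⟩ : ∃ bₘ, bₘ = ε * M B 1 0 := ⟨_, rfl⟩
  have hS : A bₘ * M B * A b₁ = -(ε • (1 : Matrix (Fin 2) (Fin 2) (ZMod N))) := by
    rw [eta_fin_two (M B), hB, A, A, mul_fin_two, mul_fin_two, hb₁, hbₘ]
    ext i j
    fin_cases i <;> fin_cases j <;> simp
    · linear_combination (-(ε) : ZMod N) * hdet + (M B 1 1 + (ε * M B 0 1 * M B 1 0) * (-1)) * hεε
    · linear_combination (-(M B 1 0) : ZMod N) * hεε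
    · linear_combination (-(M B 0 1) : ZMod N) * hεε
  obtain ⟨X, hX⟩ : ∃ X, X = A (v - b₁) * M mid * A (u - bₘ) := ⟨_, rfl⟩
  have hX1 : X = ε • (1 : Matrix (Fin 2) (Fin 2) (ZMod N)) := by
    have e1 : A v = -(A b₁ * A 0 * A (v - b₁)) := by rw [← A_add]; congr 1; ring
    have e2 : A u = -(A (u - bₘ) * A 0 * A bₘ) := by rw [← A_add]; congr 1; ring
    have e3 : M B * A b₁ * A 0 * X * A 0 * A bₘ = 1 := by
      rw [← hM, M_cons, M_append, M_cons, e1, e2, hX]
      simp only [Matrix.mul_assoc, Matrix.mul_neg, Matrix.neg_mul, neg_neg]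
    have e4 : A bₘ * (M B * A b₁ * A 0 * X * A 0) = 1 := mul_eq_one_comm.1 e3
    have e5 : (A bₘ * M B * A b₁) * (A 0 * X * A 0) = 1 := by
      rw [← e4]; simp only [Matrix.mul_assoc]
    rw [hS] at e5
    have e6 : A 0 * X * A 0 = -(ε • (1 : Matrix (Fin 2) (Fin 2) (ZMod N))) := by
      have : -(ε • (-(ε • (1 : Matrix (Fin 2) (Fin 2) (ZMod N))) * (A 0 * X * A 0))) =
          A 0 * X * A 0 := by
        rw [neg_mul, smul_mul_assoc, one_mul, smul_neg, neg_neg, smul_smul, hεε, one_smul]
      rw [← this, e5]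
    have e7 : A 0 * (A 0 * X * A 0) * A 0 = X := by
      have : A 0 * (A 0 * X * A 0) * A 0 = (A 0 * A 0) * X * (A 0 * A 0) := by
        simp only [Matrix.mul_assoc]
      rw [this, A_zero_mul]
      simp
    rw [← e7, e6, mul_neg, neg_mul, mul_smul_comm, smul_mul_assoc, mul_one, A_zero_mul, smul_neg,
      neg_neg]
  refine ⟨(u - bₘ) :: (mid ++ [v - b₁]), b₁ :: (B ++ [bₘ]), u :: (mid ++ v :: B), ⟨by simp, ?_⟩,
    by simp; omega, ⟨by simp, ?_⟩, by simp; omega, ⟨u - bₘ, v - b₁, b₁, bₘ, mid, B, rfl, rfl, ?_⟩,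
    Or.inl hc⟩
  · rw [M_cons, M_append, M_singleton, ← hX, hX1]
    rcases hε with rfl | rfl <;> simp
  · rw [M_cons, M_append, M_singleton, hS]
    rcases hε with rfl | rfl <;> simp
  · simp

/-- The periodic extension of an irreducible solution with `M c = 1` is `Good`. -/
theorem good_of_irreducible {N : ℕ} (hN : 3 ≤ N) {c : List (ZMod N)}
    (hc : IsIrreducibleSolution c) (hM : M c = 1) :
    ∃ a, Good N c.length a := by
  obtain ⟨L, hL⟩ : ∃ L, L = c.length := ⟨_, rfl⟩
  obtain ⟨a, ha⟩ : ∃ a : ℕ → ZMod N, a = fun i => c.getD (i % L) 0 := ⟨_, rfl⟩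
  rw [← hL]
  have hL3 : 3 ≤ L := by rw [hL]; exact hc.2.1
  have hper : ∀ i, a (i + L) = a i := by intro i; simp [ha]
  have hword : word a L = c := by
    apply List.ext_getElem
    · simp [word, hL]
    · intro i h1 h2
      simp only [word, List.getElem_map, List.getElem_range', ha]
      rw [zero_add, one_mul, Nat.mod_eq_of_lt (by omega), List.getD_eq_getElem _ _ h2]
  have h0 : P a 0 L = 1 := by
    have : P a 0 L = M (word a L) := rfl
    rw [this, hword, hM]
  have hone : ∀ s, P a s L = 1 := by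
    intro s
    have e1 := P_add a 0 s L
    have e2 := P_add a 0 L s
    have e3 := P_per hper 0 1 s
    rw [mul_one] at e3
    rw [h0, mul_one, e3] at e2
    rw [zero_add, add_comm, e2] at e1
    have hu : IsUnit (P a 0 s) := by
      rw [Matrix.isUnit_iff_isUnit_det, P, det_M]
      exact isUnit_one
    exact (hu.mul_right_cancel (by rw [one_mul]; exact e1)).symm
  have hne : (1 : ZMod N) ≠ -1 := by
    intro h
    have h2 : ((2 : ℕ) : ZMod N) = 0 := by push_cast; linear_combination h
    rw [ZMod.natCast_eq_zero_iff] at h2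
    have := Nat.le_of_dvd (by norm_num) h2
    omega
  have hne0 : (1 : ZMod N) ≠ 0 := by
    intro h
    have h2 : ((1 : ℕ) : ZMod N) = 0 := by push_cast; exact h
    rw [ZMod.natCast_eq_zero_iff] at h2
    have := Nat.le_of_dvd (by norm_num) h2
    omega
  have hblock : ∀ s i, 1 ≤ i → i + 3 ≤ L → ¬ (P a s i 0 0 = 1 ∨ P a s i 0 0 = -1) := by
    intro s i hi1 hi2 hK
    obtain ⟨k, hk⟩ : ∃ k, L = i + 2 + k := ⟨L - i - 2, by omega⟩
    have hlist : (List.range' (s + i) L).map a =
        a (s + i) :: ((List.range' (s + i + 1) k).map a ++ a (s + i + 1 + k) ::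
          (List.range' s i).map a) := by
      have e1 : List.range' (s + i) L = (s + i) :: (List.range' (s + i + 1) k ++
          (s + i + 1 + k) :: List.range' (s + L) i) := by
        rw [show L = (k + (i + 1)) + 1 by omega, List.range'_succ, ← List.range'_append_1,
          List.range'_succ]
        congr 4
        omega
      have e2 : (List.range' (s + L) i).map a = (List.range' s i).map a := by
        apply List.ext_getElem
        · simp
        · intro t h1 h2
          simp only [List.getElem_map, List.getElem_range']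
          rw [show s + L + 1 * t = s + 1 * t + L by ring, hper]
      rw [e1]
      simp only [List.map_cons, List.map_append, e2]
    refine hc.2.2 (reducible_of_block (a (s + i)) (a (s + i + 1 + k))
      ((List.range' (s + i + 1) k).map a) ((List.range' s i).map a) (P a s i 0 0) hK rfl
      (by simpa using hi1) (by simp; omega) ?_ c ?_)
    · rw [← hlist]
      exact hone (s + i)
    · rw [← hlist, ← word_rotate hper, hword]
      exact ⟨_, rfl⟩
  have hlast : ∀ s, P a s (L - 1) 0 0 = 0 ∧ P a s (L - 2) 0 0 = -1 := by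
    intro s
    have e1 := hone s
    rw [show L = (L - 1) + 1 by omega, P_succ, eta_fin_two (P a s (L - 1)), A, mul_fin_two,
      one_fin_two] at e1
    have e2 := congrFun (congrFun e1 1) 0
    have e3 := congrFun (congrFun e1 0) 0
    have e4 : P a s (L - 1) 1 0 = P a s (L - 2) 0 0 := by
      rw [show L - 1 = (L - 2) + 1 by omega, P_succ, eta_fin_two (P a s (L - 2)), A, mul_fin_two]
      simp
    simp at e2 e3
    refine ⟨e2, ?_⟩
    rw [← e4]
    rw [e2] at e3
    linear_combination -e3
  have hred : ∀ s j, P a s j = P a s (j % L) := by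
    intro s j
    conv_lhs => rw [← Nat.div_add_mod j L]
    rw [P_add, one_mul'' hper hone, P_per hper, mul_one]
  refine ⟨a, hper, hone, fun s j hj => ?_, fun s j hj => ?_⟩
  · rw [hred] at hj
    have hlt := Nat.mod_lt j (show 0 < L by omega)
    by_contra hnd
    have h1 : 1 ≤ j % L := Nat.pos_of_ne_zero fun h => hnd (Nat.dvd_of_mod_eq_zero h)
    by_cases h3 : j % L + 3 ≤ L
    · exact hblock s _ h1 h3 (Or.inl hj)
    · rcases (show j % L = L - 1 ∨ j % L = L - 2 by omega) with h | h
      · rw [h, (hlast s).1] at hj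
        exact hne0 hj.symm
      · rw [h, (hlast s).2] at hj
        exact hne hj.symm
  · rw [hred] at hj
    have hlt := Nat.mod_lt j (show 0 < L by omega)
    by_cases h0' : j % L = 0
    · rw [h0', P_zero] at hj
      simp at hj
      exact absurd hj hne
    by_cases h3 : j % L + 3 ≤ L
    · exact absurd (Or.inr hj) (hblock s _ (by omega) h3)
    · rcases (show j % L = L - 1 ∨ j % L = L - 2 by omega) with h | h
      · rw [h, (hlast s).1] at hj
        exact absurd (by linear_combination hj) hne0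
      · have h2 := Nat.div_add_mod j L
        refine ⟨j / L + 1, ?_⟩
        rw [mul_add, mul_one]
        omega

/-- **Product theorem.** -/
theorem product {N₁ N₂ : ℕ} (h₁ : 3 ≤ N₁) (h₂ : 3 ≤ N₂) (hN : Nat.Coprime N₁ N₂)
    (c₁ : List (ZMod N₁)) (c₂ : List (ZMod N₂)) (hc₁ : IsIrreducibleSolution c₁)
    (hc₂ : IsIrreducibleSolution c₂) (hM₁ : M c₁ = 1) (hM₂ : M c₂ = 1)
    (hL : Nat.Coprime c₁.length c₂.length) :
    ∃ c : List (ZMod (N₁ * N₂)), IsIrreducibleSolution c ∧ M c = 1 ∧
      c.length = c₁.length * c₂.length := by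
  obtain ⟨a, ha⟩ := good_of_irreducible h₁ hc₁ hM₁
  obtain ⟨b, hb⟩ := good_of_irreducible h₂ hc₂ hM₂
  have h := ha.mul hN hb hL
  have hL3 : 3 ≤ c₁.length * c₂.length := by
    have := hc₁.2.1
    have := hc₂.2.1
    nlinarith
  exact ⟨_, h.irreducible hL3, h.one 0, by simp [word]⟩

/-- The finite check for one starting position: it runs through the products of the first `j`
letters, `j ≤ L`. -/
def chk (N L : ℕ) (w : ℕ → ℕ) : ℕ → ℕ → ℕ → ℕ → ℕ → ℕ → Bool
  | 0, _, x, y, z, t => x == 1 && (y == 0 && (z == 0 && t == 1))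
  | f + 1, j, x, y, z, t =>
    (x != 1 || j == 0) && ((x != N - 1 || j == L - 2) &&
      chk N L w f (j + 1) ((w j * x + (N - y)) % N) x ((w j * z + (N - t)) % N) z)

theorem cast_step {N : ℕ} (u x y : ℕ) (hy : y ≤ N) :
    (((u * x + (N - y)) % N : ℕ) : ZMod N) = (u : ZMod N) * x - y := by
  rw [ZMod.natCast_mod, Nat.cast_add, Nat.cast_mul, Nat.cast_sub hy, ZMod.natCast_self]
  ring

theorem nat_of_cast {N x y : ℕ} (hx : x < N) (hy : y < N) (h : (x : ZMod N) = y) : x = y := by
  have := congrArg ZMod.val h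
  rwa [ZMod.val_natCast_of_lt hx, ZMod.val_natCast_of_lt hy] at this

theorem chk_spec {N L : ℕ} (hN : 3 ≤ N) (a : ℕ → ZMod N) (s : ℕ) (w : ℕ → ℕ)
    (hw : ∀ j, a (s + j) = (w j : ZMod N)) : ∀ f j x y z t, chk N L w f j x y z t = true →
    x < N → y < N → z < N → t < N →
    P a s j = !![(x : ZMod N), (z : ZMod N); (y : ZMod N), (t : ZMod N)] →
    P a s (j + f) = 1 ∧ ∀ i < f, (P a s (j + i) 0 0 = 1 → j + i = 0) ∧
      (P a s (j + i) 0 0 = -1 → j + i = L - 2) := by
  intro f
  induction f with
  | zero =>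
    intro j x y z t h _ _ _ _ hP
    simp only [chk, Bool.and_eq_true, beq_iff_eq] at h
    obtain ⟨rfl, rfl, rfl, rfl⟩ := h
    refine ⟨?_, fun i hi => absurd hi (Nat.not_lt_zero i)⟩
    rw [add_zero, hP, one_fin_two]
    simp
  | succ f ih =>
    intro j x y z t h hx hy hz ht hP
    simp only [chk, Bool.and_eq_true, Bool.or_eq_true, bne_iff_ne, beq_iff_eq] at h
    obtain ⟨h1, h2, h3⟩ := h
    have hN0 : 0 < N := by omega
    have hstep : P a s (j + 1) = !![(((w j * x + (N - y)) % N : ℕ) : ZMod N),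
        (((w j * z + (N - t)) % N : ℕ) : ZMod N); (x : ZMod N), (z : ZMod N)] := by
      rw [P_succ, hP, hw, cast_step _ _ _ hy.le, cast_step _ _ _ ht.le, A, mul_fin_two]
      ext i j
      fin_cases i <;> fin_cases j <;> simp <;> ring
    obtain ⟨e1, e2⟩ := ih (j + 1) _ _ _ _ h3 (Nat.mod_lt _ hN0) hx (Nat.mod_lt _ hN0) hz hstep
    refine ⟨by rw [← e1]; congr 1; ring, fun i hi => ?_⟩
    rcases Nat.eq_zero_or_pos i with rfl | hi0
    · rw [add_zero, hP]
      simp only [of_apply, cons_val_zero, cons_val']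
      refine ⟨fun hq => ?_, fun hq => ?_⟩
      · have : x = 1 := nat_of_cast hx (by omega) (by rw [hq]; simp)
        rcases h1 with h1 | h1
        · exact absurd this h1
        · exact h1
      · have : x = N - 1 := nat_of_cast hx (by omega) (by
          rw [Nat.cast_sub (by omega), ZMod.natCast_self, Nat.cast_one, zero_sub]; exact hq)
        rcases h2 with h2 | h2
        · exact absurd this h2
        · exact h2
    · obtain ⟨i', rfl⟩ : ∃ i', i = i' + 1 := ⟨i - 1, by omega⟩
      have := e2 i' (by omega)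
      rw [show j + (i' + 1) = j + 1 + i' by ring]
      exact this

/-- The periodic sequence with period word `W`. -/
def seq (N : ℕ) (W : List ℕ) (i : ℕ) : ZMod N := ((W.getD (i % W.length) 0 : ℕ) : ZMod N)

theorem good_of_chk {N L : ℕ} (W : List ℕ) (hN : 3 ≤ N) (hL : 3 ≤ L) (hr : W.length ∣ L)
    (h : ∀ s < W.length, chk N L (fun j => W.getD ((s + j) % W.length) 0) L 0 1 0 0 1 = true) :
    Good N L (seq N W) := by
  have hr0 : 0 < W.length := Nat.pos_of_ne_zero (by rintro h0; rw [h0, zero_dvd_iff] at hr; omega)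
  have hper : ∀ i, seq N W (i + W.length) = seq N W i := by
    intro i
    simp [seq]
  have hperL : ∀ i, seq N W (i + L) = seq N W i := by
    intro i
    obtain ⟨k, rfl⟩ := hr
    exact per_mul hper k i
  have key : ∀ s, P (seq N W) s L = 1 ∧ ∀ i < L, (P (seq N W) s i 0 0 = 1 → i = 0) ∧
      (P (seq N W) s i 0 0 = -1 → i = L - 2) := by
    intro s
    have hs : ∀ j, P (seq N W) s j = P (seq N W) (s % W.length) j := by
      intro j
      have := P_per hper (s % W.length) (s / W.length) j
      rwa [Nat.mod_add_div] at this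
    have := chk_spec (L := L) hN (seq N W) (s % W.length)
      (fun j => W.getD ((s % W.length + j) % W.length) 0) (fun j => rfl) L 0 1 0 0 1
      (h _ (Nat.mod_lt _ hr0)) (by omega) (by omega) (by omega) (by omega)
      (by rw [P_zero, one_fin_two]; simp)
    simp only [zero_add] at this
    simp only [hs]
    exact this
  have hred : ∀ s j, P (seq N W) s j = P (seq N W) s (j % L) := by
    intro s j
    conv_lhs => rw [← Nat.div_add_mod j L]
    rw [P_add, one_mul'' hperL (fun s => (key s).1), P_per hperL, mul_one]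
  refine ⟨hperL, fun s => (key s).1, fun s j hj => ?_, fun s j hj => ?_⟩
  · rw [hred] at hj
    exact Nat.dvd_of_mod_eq_zero (((key s).2 _ (Nat.mod_lt _ (by omega))).1 hj)
  · rw [hred] at hj
    have := ((key s).2 _ (Nat.mod_lt _ (by omega))).2 hj
    have h2 := Nat.div_add_mod j L
    refine ⟨j / L + 1, ?_⟩
    rw [mul_add, mul_one]
    omega

theorem good_19 : Good 19 25 (seq 19
    [16, 7, 12, 15, 6]) :=
  good_of_chk _ (by norm_num) (by norm_num) (by norm_num) (by decide +kernel)

theorem good_29 : Good 29 49 (seq 29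
    [2, 8, 9, 2, 21, 27, 8]) :=
  good_of_chk _ (by norm_num) (by norm_num) (by norm_num) (by decide +kernel)

theorem good_37 : Good 37 81 (seq 37
    [5, 23, 19, 8, 9, 3, 27, 4, 24]) :=
  good_of_chk _ (by norm_num) (by norm_num) (by norm_num) (by decide +kernel)

theorem good_67 : Good 67 121 (seq 67
    [60, 36, 15, 60, 35, 38, 21, 20, 23, 29, 56]) :=
  good_of_chk _ (by norm_num) (by norm_num) (by norm_num) (by decide +kernel)

theorem good_103 : Good 103 169 (seq 103
    [27, 83, 44, 56, 32, 29, 78, 68, 25, 92, 58, 99, 47]) :=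
  good_of_chk _ (by norm_num) (by norm_num) (by norm_num) (by decide +kernel)

theorem good_149 : Good 149 296 (seq 149
    [100, 102, 72, 93, 53, 55, 16, 77]) :=
  good_of_chk _ (by norm_num) (by norm_num) (by norm_num) (by decide +kernel)

theorem good_239 : Good 239 289 (seq 239
    [224, 80, 236, 143, 65, 42, 183, 45, 211, 156, 123, 6, 193, 66, 204, 8, 81]) :=
  good_of_chk _ (by norm_num) (by norm_num) (by norm_num) (by decide +kernel)

/-- The product theorem, existential form. -/
theorem ex_mul {N₁ N₂ L₁ L₂ : ℕ} (h₁ : ∃ a, Good N₁ L₁ a) (h₂ : ∃ a, Good N₂ L₂ a)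
    (hN : Nat.Coprime N₁ N₂) (hL : Nat.Coprime L₁ L₂) : ∃ a, Good (N₁ * N₂) (L₁ * L₂) a := by
  obtain ⟨a, ha⟩ := h₁
  obtain ⟨b, hb⟩ := h₂
  exact ⟨_, ha.mul hN hb hL⟩

theorem base : ∃ a, Good (19 * 29 * 37 * 67 * 103 * 149 * 239)
    (25 * 49 * 81 * 121 * 169 * 296 * 289) a :=
  (ex_mul (ex_mul (ex_mul (ex_mul (ex_mul (ex_mul ⟨_, good_19⟩
    ⟨_, good_29⟩ (by norm_num) (by norm_num))
    ⟨_, good_37⟩ (by norm_num) (by norm_num))
    ⟨_, good_67⟩ (by norm_num) (by norm_num))
    ⟨_, good_103⟩ (by norm_num) (by norm_num))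
    ⟨_, good_149⟩ (by norm_num) (by norm_num))
    ⟨_, good_239⟩ (by norm_num) (by norm_num))

end Pool.Agent.H92.Quid
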